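import Mathlib

/-!
# Group-invariant consistent path systems are `6 * sqrt |G|`-metric

We prove that every `G`-invariant consistent path system `P` in every Cayley graph of every
finite group `G` satisfies `Delta P ≤ 6 * sqrt |G|`.
-/

namespace Pool.Agent.Results.MP_8f0578_co.SqrtUpperBound

open Finset

universe u

/-- The sum of `ρ` over the consecutive pairs of a list of vertices. -/
def pathLength {V : Type u} (ρ : V → V → ℝ) : List V → ℝ
  | [] => 0
  | [_] => 0
  | x :: y :: l => ρ x y + pathLength ρ (y :: l)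

/-- `ρ` is a metric on `V`. -/
structure IsMetric {V : Type u} (ρ : V → V → ℝ) : Prop where
  self : ∀ x, ρ x x = 0
  pos : ∀ x y, x ≠ y → 0 < ρ x y
  symm : ∀ x y, ρ x y = ρ y x
  tri : ∀ x y z, ρ x z ≤ ρ x y + ρ y z

/-- `P` (giving for every pair `u v` the list of vertices of the chosen path, from `u` to `v`) is a
consistent path system in the graph `Γ`. -/
structure IsConsistentPathSystem {V : Type u} (Γ : SimpleGraph V) (P : V → V → List V) : Prop where
  /-- `P u v` starts at `u` -/
  first : ∀ u v, (P u v).head? = some u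
  /-- `P u v` ends at `v` -/
  last : ∀ u v, (P u v).getLast? = some v
  /-- `P u v` is simple -/
  simple : ∀ u v, (P u v).Nodup
  /-- consecutive vertices of `P u v` are adjacent in `Γ` -/
  adj : ∀ u v, (P u v).IsChain Γ.Adj
  /-- `P v u` is `P u v` traversed backwards -/
  symm : ∀ u v, P v u = (P u v).reverse
  /-- the portion between `a` and `b` of a path `P u v` of the system is `P a b` -/
  portion : ∀ u v l a b, l <:+: P u v → l.head? = some a → l.getLast? = some b → l = P a b

/-- `P` is `α`-metric. -/
def IsAlphaMetric {V : Type u} (P : V → V → List V) (α : ℝ) : Prop :=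
  ∃ ρ : V → V → ℝ, IsMetric ρ ∧ ∀ u v, pathLength ρ (P u v) ≤ α * ρ u v

/-- `Delta P = inf {α ≥ 1 : P is α-metric}`. -/
noncomputable def Delta {V : Type u} (P : V → V → List V) : ℝ :=
  sInf {α : ℝ | 1 ≤ α ∧ IsAlphaMetric P α}

/-- The Cayley graph: `x` and `x * s` are adjacent, for `s` in `S` (`S` symmetric), `x ≠ x * s`. -/
def cayleyGraph (G : Type u) [Group G] (S : Set G) : SimpleGraph G :=
  SimpleGraph.fromRel (fun x y => x⁻¹ * y ∈ S)

/-- `P` is `G`-invariant. -/
def IsInvariant {G : Type u} [Group G] (P : G → G → List G) : Prop :=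
  ∀ g x y, P (g * x) (g * y) = (P x y).map (fun z => g * z)

/-- Question 1: are there finite groups `G n` with `|G n| → ∞`, symmetric generating sets `S n` and
`G n`-invariant consistent path systems `P n` in the Cayley graphs with
`Delta (P n) / sqrt |G n| → ∞`? -/
def QuestionOne : Prop :=
  ∃ (G : ℕ → Type u) (_ : ∀ n, Group (G n)) (_ : ∀ n, Fintype (G n)) (S : ∀ n, Set (G n))
    (P : ∀ n, G n → G n → List (G n)),
    (∀ n, (∀ s ∈ S n, s⁻¹ ∈ S n) ∧ Subgroup.closure (S n) = ⊤ ∧
      IsConsistentPathSystem (cayleyGraph (G n) (S n)) (P n) ∧ IsInvariant (P n)) ∧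
    Filter.Tendsto (fun n => Fintype.card (G n)) Filter.atTop Filter.atTop ∧
    Filter.Tendsto (fun n => Delta (P n) / Real.sqrt (Fintype.card (G n))) Filter.atTop
      Filter.atTop

/-! ### Parametrised paths -/

/-- `f 0, ..., f K` is a path of the system, with all its portions. -/
def Geo {V : Type u} (P : V → V → List V) (f : ℕ → V) (K : ℕ) : Prop :=
  ∀ i j, i ≤ j → j ≤ K → P (f i) (f j) = (List.range (j - i + 1)).map (fun t => f (i + t))

section basic

variable {V : Type u} {Γ : SimpleGraph V} {P : V → V → List V}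

lemma IsConsistentPathSystem.ne_nil (hP : IsConsistentPathSystem Γ P) (u v : V) : P u v ≠ [] := by
  intro h
  have := hP.first u v
  rw [h] at this
  simp at this

lemma exists_geo (hP : IsConsistentPathSystem Γ P) (u v : V) :
    ∃ (f : ℕ → V) (K : ℕ), f 0 = u ∧ f K = v ∧ Geo P f K ∧
      P u v = (List.range (K + 1)).map f := by
  set l := P u v with hl
  have hne : l ≠ [] := hP.ne_nil u v
  have hpos : 0 < l.length := List.length_pos_iff.mpr hne
  refine ⟨fun i => l.getD i u, l.length - 1, ?_, ?_, ?_, ?_⟩
  · have h := hP.first u v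
    rw [← hl] at h
    rw [List.head?_eq_getElem?] at h
    simp [List.getD_eq_getElem?_getD, h]
  · have h := hP.last u v
    rw [← hl] at h
    rw [List.getLast?_eq_getElem?] at h
    simp [List.getD_eq_getElem?_getD, h]
  · intro i j hij hj
    symm
    have key : (List.range (j - i + 1)).map (fun t => l.getD (i + t) u)
        = (l.drop i).take (j - i + 1) := by
      apply List.ext_getElem
      · simp; omega
      · intro n h1 h2
        have h1' : n < j - i + 1 := by simpa using h1
        have hlt : i + n < l.length := by omega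
        simp [List.getD_eq_getElem?_getD, List.getElem?_eq_getElem hlt]
    rw [key]
    have hinf : (l.drop i).take (j - i + 1) <:+: l :=
      (List.take_prefix _ _).isInfix.trans (List.drop_suffix _ _).isInfix
    refine hP.portion u v _ _ _ (by rw [← hl]; exact hinf) ?_ ?_
    · rw [← key]
      simp [List.head?_eq_getElem?]
    · rw [← key]
      rw [List.getLast?_eq_getElem?]
      have e : i + (j - i) = j := by omega
      simp [e]
  · apply List.ext_getElem
    · simp; omega
    · intro n h1 h2
      simp [List.getD_eq_getElem?_getD, List.getElem?_eq_getElem h1]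

lemma Geo.nodup (hP : IsConsistentPathSystem Γ P) {f : ℕ → V} {K : ℕ} (hf : Geo P f K)
    {i j : ℕ} (hi : i ≤ K) (hj : j ≤ K) (h : f i = f j) : i = j := by
  have h0 := hf 0 K (Nat.zero_le _) le_rfl
  have hn := hP.simple (f 0) (f K)
  rw [h0] at hn
  rw [List.nodup_map_iff_inj_on (List.nodup_range)] at hn
  exact hn i (by simp; omega) j (by simp; omega) (by simpa using h)

lemma Geo.rev (hP : IsConsistentPathSystem Γ P) {f : ℕ → V} {K : ℕ} (hf : Geo P f K) :
    Geo P (fun t => f (K - t)) K := by
  intro i j hij hj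
  have h := hf (K - j) (K - i) (by omega) (by omega)
  have hs := hP.symm (f (K - j)) (f (K - i))
  simp only
  rw [hs, h]
  apply List.ext_getElem
  · simp; omega
  · intro n h1 h2
    have h2' : n < j - i + 1 := by simpa using h2
    simp
    congr 1
    omega

lemma Geo.card_le [Fintype V] (hP : IsConsistentPathSystem Γ P) {f : ℕ → V} {K : ℕ}
    (hf : Geo P f K) : K + 1 ≤ Fintype.card V := by
  classical
  have hinj : Set.InjOn f (Finset.range (K + 1)) := by
    intro i hi j hj h
    simp at hi hj
    exact hf.nodup hP (by omega) (by omega) h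
  have := Finset.card_image_of_injOn hinj
  rw [Finset.card_range] at this
  rw [← this]
  exact Finset.card_le_univ _

lemma pathLength_map_range (ρ : V → V → ℝ) (f : ℕ → V) (K : ℕ) :
    pathLength ρ ((List.range (K + 1)).map f) = ∑ i ∈ Finset.range K, ρ (f i) (f (i + 1)) := by
  induction K generalizing f with
  | zero => simp [pathLength]
  | succ n ih =>
    have h1 : List.range (n + 1 + 1) = 0 :: (List.range (n + 1)).map Nat.succ := by
      rw [List.range_succ_eq_map]
    have h2 : (List.range (n + 1)).map Nat.succ = 1 :: (List.range n).map (Nat.succ ∘ Nat.succ) := by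
      rw [List.range_succ_eq_map]
      simp [List.map_map]
    have h3 := ih (fun i => f (i + 1))
    rw [Finset.sum_range_succ']
    rw [← h3]
    rw [h1, List.map_cons, List.map_map]
    have h4 : (List.map (f ∘ Nat.succ) (List.range (n + 1))) = List.map (fun i => f (i + 1)) (List.range (n + 1)) := rfl
    rw [h4]
    rw [List.range_succ_eq_map, List.map_cons]
    simp only [pathLength]
    ring_nf

end basic


/-! ### Counting -/

section group

variable {G : Type u} [Group G] {Γ : SimpleGraph G} {P : G → G → List G}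

lemma Geo.mul (hinv : IsInvariant P) {f : ℕ → G} {K : ℕ} (hf : Geo P f K) (g : G) :
    Geo P (fun t => g * f t) K := by
  intro i j hij hj
  rw [hinv, hf i j hij hj, List.map_map]
  rfl

omit [Group G] in
lemma Geo.mem (hP : IsConsistentPathSystem Γ P) {h : ℕ → G} {L : ℕ} (hh : Geo P h L) {i j : ℕ}
    (hi : i ≤ L) (hj : j ≤ L) {x : G} (hx : x ∈ P (h i) (h j)) : ∃ k, k ≤ L ∧ x = h k := by
  rcases le_total i j with hij | hij
  · rw [hh i j hij hj] at hx
    simp only [List.mem_map, List.mem_range] at hx
    obtain ⟨t, ht, rfl⟩ := hx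
    exact ⟨i + t, by omega, rfl⟩
  · rw [hP.symm (h j) (h i), hh j i hij hi] at hx
    simp only [List.mem_reverse, List.mem_map, List.mem_range] at hx
    obtain ⟨t, ht, rfl⟩ := hx
    exact ⟨j + t, by omega, rfl⟩

/-- indices `β` of the path `h` preceded or followed by the letter `x`. -/
noncomputable def touch (h : ℕ → G) (L : ℕ) (x : G) : Finset ℕ := by
  classical
  exact (Finset.range (L + 1)).filter (fun β => ∃ β', β' ≤ L ∧ (h β')⁻¹ * h β = x)

/-- number of steps of the path `h` satisfying `p`. -/
noncomputable def cnt (h : ℕ → G) (L : ℕ) (p : G → Prop) : ℕ := by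
  classical
  exact ((Finset.range L).filter (fun j => p ((h j)⁻¹ * h (j + 1)))).card

lemma touch_card_le (h : ℕ → G) (L : ℕ) (x : G) : (touch h L x).card ≤ L + 1 := by
  classical
  unfold touch
  exact (Finset.card_filter_le _ _).trans (by simp)

lemma card_count [Fintype G] (hP : IsConsistentPathSystem Γ P) (hinv : IsInvariant P)
    {g h : ℕ → G} {K L : ℕ} (hg : Geo P g K) (hh : Geo P h L) :
    (K + 1) * (L + 1) ≤
      Fintype.card G + ∑ α ∈ Finset.range K, (touch h L ((g α)⁻¹ * g (α + 1))).card := by
  classical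
  set R := Finset.range (K + 1) ×ˢ Finset.range (L + 1) with hR
  set U := R.filter (fun p => p.1 = 0 ∨ ∀ β', β' ≤ L → g (p.1 - 1) * (h β')⁻¹ ≠ g p.1 * (h p.2)⁻¹)
    with hU
  have hinj : Set.InjOn (fun p : ℕ × ℕ => g p.1 * (h p.2)⁻¹) U := by
    -- main step
    have main : ∀ α β α' β' : ℕ, α ≤ K → β ≤ L → α' ≤ K → β' ≤ L → α' < α →
        (α = 0 ∨ ∀ γ, γ ≤ L → g (α - 1) * (h γ)⁻¹ ≠ g α * (h β)⁻¹) →
        g α * (h β)⁻¹ ≠ g α' * (h β')⁻¹ := by
      intro α β α' β' hα hβ hα' hβ' hlt hUU heq
      rcases hUU with h0 | hUU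
      · omega
      set t := h β * (g α)⁻¹ with ht
      have e1 : t * g α = h β := by simp [ht]
      have e2 : t * g α' = h β' := by
        have : (h β')⁻¹ = (g α')⁻¹ * (g α * (h β)⁻¹) := by rw [heq]; group
        have h3 : h β' = h β * (g α)⁻¹ * g α' := by
          rw [← inv_inv (h β'), this]; group
        rw [ht, h3]
      have hmem : t * g (α - 1) ∈ P (h β') (h β) := by
        rw [← e1, ← e2, hinv, hg α' α hlt.le hα]
        simp only [List.mem_map, List.mem_range]
        exact ⟨g (α - 1), ⟨α - 1 - α', by omega, by congr 1; omega⟩, rfl⟩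
      obtain ⟨γ, hγ, hγe⟩ := hh.mem hP hβ' hβ hmem
      apply hUU γ hγ
      rw [← hγe, ht]
      group
    rintro ⟨α, β⟩ hp ⟨α', β'⟩ hp' heq
    simp only [hU, hR, Finset.coe_filter, Finset.mem_product, Finset.mem_range,
      Set.mem_ofPred_eq] at hp hp'
    simp only at heq
    rcases lt_trichotomy α' α with hlt | hlt | hlt
    · exact absurd heq (main α β α' β' (by omega) (by omega) (by omega) (by omega) hlt hp.2)
    · subst hlt
      have : h β = h β' := by
        have := mul_left_cancel heq
        exact inv_injective this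
      have := hh.nodup hP (by omega) (by omega) this
      rw [this]
    · exact absurd heq.symm (main α' β' α β (by omega) (by omega) (by omega) (by omega) hlt hp'.2)
  have hUcard : U.card ≤ Fintype.card G := by
    rw [← Finset.card_image_of_injOn hinj]
    exact Finset.card_le_univ _
  have hRcard : R.card = (K + 1) * (L + 1) := by simp [hR]
  have hsplit : R.card = U.card + (R.filter (fun p => ¬ (p.1 = 0 ∨ ∀ β', β' ≤ L →
      g (p.1 - 1) * (h β')⁻¹ ≠ g p.1 * (h p.2)⁻¹))).card := by
    rw [hU, Finset.card_filter_add_card_filter_not]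
  have hcomp : (R.filter (fun p => ¬ (p.1 = 0 ∨ ∀ β', β' ≤ L →
      g (p.1 - 1) * (h β')⁻¹ ≠ g p.1 * (h p.2)⁻¹))).card ≤
      ∑ α ∈ Finset.range K, (touch h L ((g α)⁻¹ * g (α + 1))).card := by
    rw [Finset.card_filter, hR, Finset.sum_product, Finset.sum_range_succ']
    simp only [true_or, not_true, if_false, Finset.sum_const_zero, add_zero]
    apply Finset.sum_le_sum
    intro α hα
    rw [← Finset.card_filter]
    apply Finset.card_le_card
    intro β hβ
    simp only [Finset.mem_filter, Finset.mem_range, not_or, not_forall, not_not] at hβ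
    obtain ⟨hβL, -, γ, hγ, hγe⟩ := hβ
    simp only [touch, Finset.mem_filter, Finset.mem_range]
    refine ⟨hβL, γ, hγ, ?_⟩
    simp only [Nat.add_sub_cancel] at hγe
    have h1 : (h γ)⁻¹ = (g α)⁻¹ * (g (α + 1) * (h β)⁻¹) := by rw [← hγe]; group
    rw [h1]; group
  rw [← hRcard, hsplit]
  exact Nat.add_le_add hUcard hcomp

/-- `x` is a letter: the path from `1` to `x` is a single edge. -/
def IsLetter (P : G → G → List G) (x : G) : Prop := P 1 x = [1, x]

lemma Geo.isLetter (hinv : IsInvariant P) {f : ℕ → G} {K : ℕ} (hf : Geo P f K) {i : ℕ}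
    (hi : i < K) : IsLetter P ((f i)⁻¹ * f (i + 1)) := by
  have h1 := hf i (i + 1) (by omega) (by omega)
  have h2 := hinv (f i)⁻¹ (f i) (f (i + 1))
  rw [h1] at h2
  have e : i + 1 - i + 1 = 2 := by omega
  rw [e] at h2
  unfold IsLetter
  have e2 : (f i)⁻¹ * f i = 1 := by group
  rw [e2] at h2
  rw [h2]
  simp [List.range_succ]

lemma touch_le (hP : IsConsistentPathSystem Γ P) (hinv : IsInvariant P) {h : ℕ → G} {L : ℕ}
    (hh : Geo P h L) {x : G} (hx : IsLetter P x) :
    (touch h L x).card ≤ cnt h L (fun z => z = x) + cnt h L (fun z => z = x⁻¹) := by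
  classical
  have hlen : ∀ β β', β' ≤ L → β ≤ L → (h β')⁻¹ * h β = x → (P (h β') (h β)).length = 2 := by
    intro β β' h1 h2 h3
    have h4 := hinv (h β') 1 x
    have h5 : h β' * x = h β := by rw [← h3]; group
    rw [h5, mul_one] at h4
    rw [h4, hx]
    simp
  have hsub : touch h L x ⊆
      ((Finset.range L).filter (fun j => (h j)⁻¹ * h (j + 1) = x)).image (fun j => j + 1) ∪
      (Finset.range L).filter (fun j => (h j)⁻¹ * h (j + 1) = x⁻¹) := by
    intro β hβ
    simp only [touch, Finset.mem_filter, Finset.mem_range] at hβ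
    obtain ⟨hβL, β', hβ', he⟩ := hβ
    have hl := hlen β β' hβ' (by omega) he
    simp only [Finset.mem_union, Finset.mem_image, Finset.mem_filter, Finset.mem_range]
    rcases le_total β' β with hle | hle
    · rw [hh β' β hle (by omega)] at hl
      simp at hl
      have : β = β' + 1 := by omega
      subst this
      left
      exact ⟨β', ⟨by omega, he⟩, rfl⟩
    · rw [hP.symm (h β) (h β'), hh β β' hle hβ'] at hl
      simp at hl
      have : β' = β + 1 := by omega
      subst this
      right
      refine ⟨by omega, ?_⟩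
      rw [← he]
      group
  refine (Finset.card_le_card hsub).trans ((Finset.card_union_le _ _).trans ?_)
  unfold cnt
  exact Nat.add_le_add Finset.card_image_le le_rfl

/-! ### The two frequent letters -/

lemma cnt_add_not (h : ℕ → G) (L : ℕ) (p : G → Prop) :
    cnt h L p + cnt h L (fun z => ¬ p z) = L := by
  classical
  unfold cnt
  rw [Finset.card_filter_add_card_filter_not]
  simp

lemma cnt_or (h : ℕ → G) (L : ℕ) (p q : G → Prop) (hpq : ∀ z, p z → ¬ q z) :
    cnt h L (fun z => p z ∨ q z) = cnt h L p + cnt h L q := by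
  classical
  unfold cnt
  rw [← Finset.card_union_of_disjoint]
  · congr 1
    ext j
    simp only [Finset.mem_filter, Finset.mem_union]
    tauto
  · rw [Finset.disjoint_filter]
    intro j _ h1 h2
    exact hpq _ h1 h2

omit [Group G] in
lemma two_set {a b x y z : G} (hx : x = a ∨ x = b) (hy : y = a ∨ y = b) (hz : z = a ∨ z = b)
    (h1 : x ≠ z) (h2 : y ≠ z) : x = y := by
  rcases hx with rfl | rfl <;> rcases hy with rfl | rfl <;> rcases hz with rfl | rfl <;>
    first
      | rfl
      | exact absurd rfl h1
      | exact absurd rfl h2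

lemma cnt_mono (h : ℕ → G) (L : ℕ) (p q : G → Prop) (hpq : ∀ z, p z → q z) :
    cnt h L p ≤ cnt h L q := by
  classical
  unfold cnt
  apply Finset.card_le_card
  intro j hj
  simp only [Finset.mem_filter] at hj ⊢
  exact ⟨hj.1, hpq _ hj.2⟩

lemma exists_big {ι : Type} (F : Finset ι) (f : ι → ℕ) (X : ℕ) (hX : 0 < X)
    (hs : X ≤ ∑ i ∈ F, f i) : ∃ i ∈ F, X ≤ F.card * f i := by
  by_contra hcon
  push Not at hcon
  have hne : F.Nonempty := by
    rw [Finset.nonempty_iff_ne_empty]
    rintro rfl
    simp at hs
    omega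
  have h1 : ∑ i ∈ F, F.card * f i < ∑ i ∈ F, X :=
    Finset.sum_lt_sum_of_nonempty hne hcon
  rw [← Finset.mul_sum, Finset.sum_const, smul_eq_mul] at h1
  have h2 : F.card * X ≤ F.card * ∑ i ∈ F, f i := Nat.mul_le_mul_left _ hs
  omega

lemma two_mul_cnt_le (hP : IsConsistentPathSystem Γ P) {h : ℕ → G} {L : ℕ} (hh : Geo P h L)
    {a : G} (ha : a * a = 1) : 2 * cnt h L (fun z => z = a) ≤ L + 1 := by
  classical
  set J := (Finset.range L).filter (fun j => (h j)⁻¹ * h (j + 1) = a) with hJ
  have hc : cnt h L (fun z => z = a) = J.card := rfl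
  have hdis : Disjoint J (J.image (fun j => j + 1)) := by
    rw [Finset.disjoint_left]
    intro j hj hj'
    simp only [hJ, Finset.mem_image, Finset.mem_filter, Finset.mem_range] at hj hj'
    obtain ⟨i, ⟨hi, hie⟩, rfl⟩ := hj'
    have h1 : h (i + 1 + 1) = h i := by
      have e1 : h (i + 1) = h i * a := by rw [← hie]; group
      have e2 : h (i + 1 + 1) = h (i + 1) * a := by rw [← hj.2]; group
      rw [e2, e1, mul_assoc, ha, mul_one]
    have := hh.nodup hP (by omega) (by omega) h1
    omega
  have hsub : J ∪ J.image (fun j => j + 1) ⊆ Finset.range (L + 1) := by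
    intro j hj
    simp only [hJ, Finset.mem_union, Finset.mem_image, Finset.mem_filter, Finset.mem_range] at hj ⊢
    rcases hj with hj | ⟨i, hi, rfl⟩
    · omega
    · omega
  have h2 := Finset.card_le_card hsub
  rw [Finset.card_union_of_disjoint hdis, Finset.card_range,
    Finset.card_image_of_injective _ (fun a b h => by simpa using h)] at h2
  omega

lemma sum_touch_eq (h : ℕ → G) (L : ℕ) (p : G → Prop) [DecidablePred p] :
    ∑ α ∈ Finset.range L, (touch h L ((h α)⁻¹ * h (α + 1))).card =
      ∑ α ∈ (Finset.range L).filter (fun j => p ((h j)⁻¹ * h (j + 1))),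
        (touch h L ((h α)⁻¹ * h (α + 1))).card +
      ∑ α ∈ (Finset.range L).filter (fun j => ¬ p ((h j)⁻¹ * h (j + 1))),
        (touch h L ((h α)⁻¹ * h (α + 1))).card :=
  (Finset.sum_filter_add_sum_filter_not _ _ _).symm

lemma exists_pair [Fintype G] (hP : IsConsistentPathSystem Γ P) (hinv : IsInvariant P)
    {h : ℕ → G} {L : ℕ} (hh : Geo P h L) (hL : 0 < L) (hN : 36 * Fintype.card G ≤ L * L) :
    ∃ A : G → Prop, (∀ x, A x → A x⁻¹) ∧
      (∀ x y z, A x → A y → A z → x ≠ z → y ≠ z → x = y) ∧
      L * cnt h L (fun z => ¬ A z) ≤ 3 * Fintype.card G := by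
  classical
  set N := Fintype.card G with hNdef
  have hNL : L + 1 ≤ N := hh.card_le hP
  have hcount := card_count hP hinv hh hh
  rw [← hNdef] at hcount
  -- a frequent letter
  obtain ⟨α, hα, hαb⟩ := exists_big (Finset.range L)
    (fun α => (touch h L ((h α)⁻¹ * h (α + 1))).card) ((L + 1) * (L + 1) - N)
    (by
      have : (L + 1) * (L + 1) = L * L + 2 * L + 1 := by ring
      omega) (by omega)
  rw [Finset.card_range] at hαb
  simp only [Finset.mem_range] at hα
  set a := (h α)⁻¹ * h (α + 1) with ha
  have hlet : IsLetter P a := hh.isLetter hinv hα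
  have hta := touch_le hP hinv hh hlet
  by_cases hinvol : a = a⁻¹
  · -- `a` is an involution
    have haa : a * a = 1 := by
      nth_rewrite 1 [hinvol]
      simp
    have h2n := two_mul_cnt_le hP hh haa
    set n := cnt h L (fun z => z = a) with hn
    have hn' : cnt h L (fun z => z = a⁻¹) = n := by rw [← hinvol]
    rw [hn'] at hta
    have hmem := cnt_add_not h L (fun z => z = a)
    rw [← hn] at hmem
    set m := cnt h L (fun z => ¬ z = a) with hm
    -- second frequent letter
    have hsplit := sum_touch_eq h L (fun z => z = a)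
    have hfirst : ∑ α ∈ (Finset.range L).filter (fun j => (h j)⁻¹ * h (j + 1) = a),
        (touch h L ((h α)⁻¹ * h (α + 1))).card ≤ n * (L + 1) := by
      have : n = ((Finset.range L).filter (fun j => (h j)⁻¹ * h (j + 1) = a)).card := rfl
      rw [this, ← smul_eq_mul, ← Finset.sum_const]
      exact Finset.sum_le_sum (fun i _ => touch_card_le h L _)
    rw [hsplit] at hcount
    have hn35 : (L + 1) * (L + 1) ≤ N + 2 * n * L := by
      have : L * (touch h L a).card ≤ L * (n + n) := Nat.mul_le_mul_left _ hta
      have h5 : (L + 1) * (L + 1) ≤ N + L * (touch h L a).card := by omega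
      linarith
    have hXpos : N < (L + 1) * (m + 1) := by
      have h3 : 2 * m ≥ L - 1 := by omega
      have h4 : L + 1 ≤ 2 * (m + 1) := by omega
      have h5 := Nat.mul_le_mul_left (L + 1) h4
      linarith
    obtain ⟨γ, hγ, hγb⟩ := exists_big
      ((Finset.range L).filter (fun j => ¬ (h j)⁻¹ * h (j + 1) = a))
      (fun α => (touch h L ((h α)⁻¹ * h (α + 1))).card) ((L + 1) * (m + 1) - N)
      (by omega)
      (by
        have : (L + 1) * (L + 1) = n * (L + 1) + (L + 1) * (m + 1) := by
          have : L = n + m := by omega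
          rw [this]; ring
        omega)
    have hcm : ((Finset.range L).filter (fun j => ¬ (h j)⁻¹ * h (j + 1) = a)).card = m := by
      rw [hm]
      unfold cnt
      congr
    rw [hcm] at hγb
    simp only [Finset.mem_filter, Finset.mem_range] at hγ
    set y := (h γ)⁻¹ * h (γ + 1) with hy
    have hlety : IsLetter P y := hh.isLetter hinv hγ.1
    have hty := touch_le hP hinv hh hlety
    have hya : y ≠ a := hγ.2
    have hmpos : 0 < m := by
      rw [Nat.pos_iff_ne_zero]
      rintro h0
      rw [h0] at hγb
      simp at hγb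
      have : 2 * n ≤ L + 1 := h2n
      have : n = L := by omega
      have hL1 : L ≤ 1 := by omega
      have : L * L ≤ 1 * 1 := Nat.mul_le_mul hL1 hL1
      omega
    by_cases hyinv : y = y⁻¹
    · refine ⟨fun z => z = a ∨ z = y, ?_, ?_, ?_⟩
      · rintro x (rfl | rfl)
        · left; exact hinvol.symm
        · right; exact hyinv.symm
      · intro x x' z hx hx' hz h1 h2
        exact two_set hx hx' hz h1 h2
      · have hor := cnt_or h L (fun z => z = a) (fun z => z = y)
          (by rintro z rfl h2; exact hya h2.symm)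
        have hnot := cnt_add_not h L (fun z => z = a ∨ z = y)
        have hn2 : cnt h L (fun z => z = y⁻¹) = cnt h L (fun z => z = y) := by rw [← hyinv]
        rw [hn2] at hty
        rw [← hn] at hor
        set ny := cnt h L (fun z => z = y) with hny
        rw [hor] at hnot
        set r := cnt h L (fun z => ¬ (z = a ∨ z = y)) with hr
        have h6 : m * (touch h L y).card ≤ m * (ny + ny) := Nat.mul_le_mul_left _ hty
        have h7 : (L + 1) * (m + 1) ≤ N + m * (2 * ny) := by
          have : (L + 1) * (m + 1) ≤ N + m * (touch h L y).card := by omega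
          linarith
        -- L = n + ny + r, m = ny + r
        have hmr : m = ny + r := by omega
        have hLm : L ≤ 2 * m + 1 := by omega
        -- m * (2 L r) ≤ 4 N m
        have key : m * (2 * (L * r)) ≤ m * (4 * N) := by
          have e1 : (m : ℤ) * (2 * (L * r)) = 2 * L * (m : ℤ) * m - L * (m * (2 * ny)) := by
            have : (r : ℤ) = m - ny := by omega
            rw [this]; ring
          have e2 : (2 * L * (m : ℤ)) ≤ L * L - 2 * L - 1 + N := by
            have hnL : (n : ℤ) = L - m := by omega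
            have hz : ((L : ℤ) + 1) * (L + 1) ≤ N + 2 * n * L := by exact_mod_cast hn35
            rw [hnL] at hz
            linarith
          have e3 : ((L : ℤ) + 1) * (m + 1) ≤ N + m * (2 * ny) := by exact_mod_cast h7
          have hm0 : (0 : ℤ) < m := by exact_mod_cast hmpos
          have hL0 : (0 : ℤ) < L := by exact_mod_cast hL
          have hN0 : (0 : ℤ) < N := by
            have : 0 < N := by omega
            exact_mod_cast this
          have e4 := mul_le_mul_of_nonneg_right e2 hm0.le
          have e5 := mul_le_mul_of_nonneg_left e3 hL0.le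
          have e6 : (L : ℤ) ≤ 3 * m := by
            have : L ≤ 3 * m := by omega
            exact_mod_cast this
          have e7 := mul_le_mul_of_nonneg_left e6 hN0.le
          have goal : (m : ℤ) * (2 * (L * r)) ≤ m * (4 * N) := by
            rw [e1]
            have e8 : 0 ≤ (L : ℤ) * m := by positivity
            have e9 : 0 ≤ (L : ℤ) * L := by positivity
            linarith
          exact_mod_cast goal
        have h8 := Nat.le_of_mul_le_mul_left key hmpos
        omega
    · -- impossible
      exfalso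
      have hdis1 := cnt_or h L (fun z => z = y) (fun z => z = y⁻¹)
        (by rintro z rfl h2; exact hyinv h2)
      have hle : cnt h L (fun z => z = y ∨ z = y⁻¹) ≤ m := by
        rw [hm]
        apply cnt_mono
        rintro z (rfl | rfl)
        · exact hya
        · intro h1
          apply hya
          rw [← inv_inj, h1, ← hinvol]
      have hmm : (L + 1) * (m + 1) ≤ N + m * m := by
        have h6 : m * (touch h L y).card ≤ m * m := Nat.mul_le_mul_left _ (by omega)
        omega
      have hLnm : L = n + m := by omega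
      have hz1 : ((L : ℤ) + 1) * (m + 1) ≤ N + m * m := by exact_mod_cast hmm
      have hz2 : ((L : ℤ) + 1) * (L + 1) ≤ N + 2 * n * L := by exact_mod_cast hn35
      have hz3 : 36 * (N : ℤ) ≤ L * L := by exact_mod_cast hN
      have hz4 : (L : ℤ) = n + m := by exact_mod_cast hLnm
      have hz5 : 2 * (n : ℤ) ≤ L + 1 := by exact_mod_cast h2n
      have hL0 : (0 : ℤ) < L := by exact_mod_cast hL
      have hm0 : (0 : ℤ) < m := by exact_mod_cast hmpos
      -- n ≥ 35 L / 72, m ≥ (L-1)/2
      have h10 : 35 * (L : ℤ) ≤ 72 * n := by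
        by_contra hc
        push Not at hc
        have : 72 * (n : ℤ) * L < 35 * L * L := by
          have := mul_lt_mul_of_pos_right hc hL0
          linarith
        linarith
      have h11 : (L : ℤ) - 1 ≤ 2 * m := by linarith
      have h12 : (n : ℤ) * m + (L + 1) + m ≤ N := by
        have : (L : ℤ) * m = (n + m) * m := by rw [hz4]
        linarith
      have h13 : 35 * (L : ℤ) * m ≤ 72 * (n * m) := by
        have := mul_le_mul_of_nonneg_right h10 hm0.le
        linarith
      have h14 : 35 * (L : ℤ) * (L - 1) ≤ 35 * L * (2 * m) := by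
        apply mul_le_mul_of_nonneg_left h11 (by positivity)
      have h15 : 0 ≤ (L : ℤ) * L := by positivity
      linarith
  · refine ⟨fun z => z = a ∨ z = a⁻¹, ?_, ?_, ?_⟩
    · rintro x (rfl | rfl)
      · right; rfl
      · left; simp
    · intro x x' z hx hx' hz h1 h2
      exact two_set hx hx' hz h1 h2
    · have hor := cnt_or h L (fun z => z = a) (fun z => z = a⁻¹)
        (by rintro z rfl h2; exact hinvol h2)
      have hnot := cnt_add_not h L (fun z => z = a ∨ z = a⁻¹)
      rw [hor] at hnot
      set r := cnt h L (fun z => ¬ (z = a ∨ z = a⁻¹)) with hr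
      set τ := cnt h L (fun z => z = a) + cnt h L (fun z => z = a⁻¹) with hτ
      have h1 : L * (touch h L a).card ≤ L * τ := Nat.mul_le_mul_left _ hta
      have h2 : (L + 1) * (L + 1) ≤ N + L * τ := by omega
      have h3 : L * (τ + r) = L * L := by rw [hnot]
      linarith



/-! ### The run and the bound on the number of other letters -/

lemma other_letters_le [Fintype G] (hP : IsConsistentPathSystem Γ P) (hinv : IsInvariant P)
    {g h : ℕ → G} {K L : ℕ} (hg : Geo P g K) (hh : Geo P h L) (A : G → Prop)
    (hA : ∀ x, A x → A x⁻¹) (h12 : 12 * cnt h L (fun z => ¬ A z) ≤ L) :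
    5 * L * cnt g K (fun z => ¬ A z) ≤ 6 * Fintype.card G := by
  classical
  set N := Fintype.card G with hNdef
  have hcount := card_count hP hinv hg hh
  rw [← hNdef] at hcount
  set r := cnt h L (fun z => ¬ A z) with hr
  set r' := cnt g K (fun z => ¬ A z) with hr'
  have hK := cnt_add_not g K (fun z => A z)
  rw [← hr'] at hK
  have hsplit : ∑ α ∈ Finset.range K, (touch h L ((g α)⁻¹ * g (α + 1))).card =
      ∑ α ∈ (Finset.range K).filter (fun j => A ((g j)⁻¹ * g (j + 1))),
        (touch h L ((g α)⁻¹ * g (α + 1))).card +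
      ∑ α ∈ (Finset.range K).filter (fun j => ¬ A ((g j)⁻¹ * g (j + 1))),
        (touch h L ((g α)⁻¹ * g (α + 1))).card :=
    (Finset.sum_filter_add_sum_filter_not _ _ _).symm
  have hfirst : ∑ α ∈ (Finset.range K).filter (fun j => A ((g j)⁻¹ * g (j + 1))),
        (touch h L ((g α)⁻¹ * g (α + 1))).card ≤ cnt g K (fun z => A z) * (L + 1) := by
    have : cnt g K (fun z => A z) =
      ((Finset.range K).filter (fun j => A ((g j)⁻¹ * g (j + 1)))).card := rfl
    rw [this, ← smul_eq_mul, ← Finset.sum_const]
    exact Finset.sum_le_sum (fun i _ => touch_card_le h L _)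
  have hsecond : ∑ α ∈ (Finset.range K).filter (fun j => ¬ A ((g j)⁻¹ * g (j + 1))),
        (touch h L ((g α)⁻¹ * g (α + 1))).card ≤ r' * (2 * r) := by
    have : r' = ((Finset.range K).filter (fun j => ¬ A ((g j)⁻¹ * g (j + 1)))).card := by
      rw [hr']
      unfold cnt
      congr
    rw [this, ← smul_eq_mul, ← Finset.sum_const]
    apply Finset.sum_le_sum
    intro i hi
    simp only [Finset.mem_filter, Finset.mem_range] at hi
    have h1 := touch_le hP hinv hh (hg.isLetter hinv hi.1)
    have h2 : cnt h L (fun z => z = (g i)⁻¹ * g (i + 1)) ≤ r := by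
      apply cnt_mono
      rintro z rfl
      exact hi.2
    have h3 : cnt h L (fun z => z = ((g i)⁻¹ * g (i + 1))⁻¹) ≤ r := by
      apply cnt_mono
      rintro z rfl h4
      apply hi.2
      have := hA _ h4
      rwa [inv_inv] at this
    omega
  rw [hsplit] at hcount
  set k := cnt g K (fun z => A z) with hk
  have h1 : (K + 1) * (L + 1) ≤ N + k * (L + 1) + r' * (2 * r) := by omega
  have h2 : (K + 1) * (L + 1) = k * (L + 1) + r' * (L + 1) + (L + 1) := by
    rw [← hK]; ring
  have h3 : r' * (L + 1) ≤ N + r' * (2 * r) := by omega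
  have h4 : r' * (12 * r) ≤ r' * L := Nat.mul_le_mul_left _ h12
  linarith

omit [Group G] in
lemma exists_window (L r m : ℕ) (bad : ℕ → Prop) [DecidablePred bad]
    (hr : ((Finset.range L).filter bad).card = r) (hm : m * (r + 1) ≤ L) :
    ∃ q, q + m ≤ L ∧ ∀ i, q ≤ i → i < q + m → ¬ bad i := by
  by_contra hcon
  push Not at hcon
  have hw : ∀ j : Fin (r + 1), ∃ i, j.val * m ≤ i ∧ i < j.val * m + m ∧ bad i := by
    intro j
    have hj : j.val * m + m ≤ L := by
      have : j.val + 1 ≤ r + 1 := by omega
      calc j.val * m + m = m * (j.val + 1) := by ring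
        _ ≤ m * (r + 1) := Nat.mul_le_mul_left _ this
        _ ≤ L := hm
    exact hcon _ hj
  choose φ hφ1 hφ2 hφ3 using hw
  have hinj : Function.Injective φ := by
    intro i j hij
    by_contra hne
    have hne' : i.val ≠ j.val := fun h => hne (Fin.ext h)
    rcases lt_or_gt_of_ne hne' with hlt | hlt
    · have h1 : (i.val + 1) * m ≤ j.val * m := Nat.mul_le_mul_right _ hlt
      have h2 := hφ2 i
      have h3 := hφ1 j
      rw [add_mul, one_mul] at h1
      omega
    · have h1 : (j.val + 1) * m ≤ i.val * m := Nat.mul_le_mul_right _ hlt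
      have h2 := hφ2 j
      have h3 := hφ1 i
      rw [add_mul, one_mul] at h1
      omega
  have hsub : Finset.univ.image φ ⊆ (Finset.range L).filter bad := by
    intro i hi
    simp only [Finset.mem_image, Finset.mem_univ, true_and] at hi
    obtain ⟨j, rfl⟩ := hi
    simp only [Finset.mem_filter, Finset.mem_range]
    refine ⟨?_, hφ3 j⟩
    have h1 : (j.val + 1) * m ≤ (r + 1) * m := Nat.mul_le_mul_right _ (by omega)
    have h2 := hφ2 j
    rw [add_mul, one_mul] at h1
    have h3 : (r + 1) * m ≤ L := by rw [mul_comm]; exact hm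
    omega
  have h1 := Finset.card_le_card hsub
  rw [Finset.card_image_of_injective _ hinj, Finset.card_univ, Fintype.card_fin, hr] at h1
  omega

/-! ### The metric -/

/-- `x` is a product of `k` elements of `A`. -/
def Walk (A : G → Prop) (k : ℕ) (x : G) : Prop :=
  ∃ w : ℕ → G, w 0 = 1 ∧ w k = x ∧ ∀ i, i < k → A ((w i)⁻¹ * w (i + 1))

lemma Walk.mul {A : G → Prop} {k l : ℕ} {x y : G} (hx : Walk A k x) (hy : Walk A l y) :
    Walk A (k + l) (x * y) := by
  obtain ⟨w, w0, wk, hw⟩ := hx
  obtain ⟨v, v0, vl, hv⟩ := hy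
  refine ⟨fun i => if i ≤ k then w i else x * v (i - k), by simp [w0], ?_, ?_⟩
  · rcases Nat.eq_zero_or_pos l with h0 | h0
    · subst h0
      simp only [add_zero, le_refl, if_true]
      rw [wk, ← vl, v0, mul_one]
    · have : ¬ (k + l ≤ k) := by omega
      simp only [this, if_false]
      rw [Nat.add_sub_cancel_left, vl]
  · intro i hi
    rcases lt_trichotomy i k with h | h | h
    · have h1 : i ≤ k := by omega
      have h2 : i + 1 ≤ k := by omega
      simp only [h1, h2, if_true]
      exact hw i h
    · subst h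
      have h2 : ¬ (i + 1 ≤ i) := by omega
      simp only [le_refl, h2, if_true, if_false]
      have := hv 0 (by omega)
      rw [v0] at this
      rw [wk, Nat.add_sub_cancel_left]
      convert this using 1
      group
    · have h1 : ¬ (i ≤ k) := by omega
      have h2 : ¬ (i + 1 ≤ k) := by omega
      simp only [h1, h2, if_false]
      have := hv (i - k) (by omega)
      have e : i + 1 - k = i - k + 1 := by omega
      rw [e]
      convert this using 1
      group

lemma Walk.inv {A : G → Prop} (hA : ∀ x, A x → A x⁻¹) {k : ℕ} {x : G} (hx : Walk A k x) :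
    Walk A k x⁻¹ := by
  obtain ⟨w, w0, wk, hw⟩ := hx
  refine ⟨fun i => x⁻¹ * w (k - i), by simp [wk], by simp [w0], ?_⟩
  intro i hi
  have h1 := hA _ (hw (k - (i + 1)) (by omega))
  have e : k - (i + 1) + 1 = k - i := by omega
  rw [e] at h1
  convert h1 using 1
  group

lemma Walk.one {A : G → Prop} : Walk A 0 (1 : G) :=
  ⟨fun _ => 1, rfl, rfl, fun i hi => absurd hi (Nat.not_lt_zero i)⟩

lemma Walk.single {A : G → Prop} {x : G} (hx : A x) : Walk A 1 x := by
  refine ⟨fun i => if i = 0 then 1 else x, by simp, by simp, ?_⟩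
  intro i hi
  have : i = 0 := by omega
  subst this
  simpa using hx

lemma Walk.zero_iff {A : G → Prop} {x : G} (hx : Walk A 0 x) : x = 1 := by
  obtain ⟨w, w0, wk, -⟩ := hx
  rw [← wk, w0]

/-- A backtracking walk can be shortened. -/
lemma Walk.shorten {A : G → Prop} {k i : ℕ} (w : ℕ → G) (w0 : w 0 = 1)
    (hw : ∀ i, i < k → A ((w i)⁻¹ * w (i + 1))) (hi : i + 2 ≤ k) (he : w (i + 2) = w i) :
    Walk A (k - 2) (w k) := by
  refine ⟨fun j => if j ≤ i then w j else w (j + 2), by simp [w0], ?_, ?_⟩
  · by_cases h : k - 2 ≤ i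
    · have : k - 2 = i := by omega
      simp only [this, le_refl, if_true]
      rw [← he]
      congr 1
      omega
    · simp only [h, if_false]
      congr 1
      omega
  · intro j hj
    rcases lt_trichotomy j i with h | h | h
    · have h1 : j ≤ i := by omega
      have h2 : j + 1 ≤ i := by omega
      simp only [h1, h2, if_true]
      exact hw j (by omega)
    · subst h
      have h2 : ¬ (j + 1 ≤ j) := by omega
      simp only [le_refl, h2, if_true, if_false]
      rw [← he]
      exact hw (j + 2) (by omega)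
    · have h1 : ¬ (j ≤ i) := by omega
      have h2 : ¬ (j + 1 ≤ i) := by omega
      simp only [h1, h2, if_false]
      exact hw (j + 2) (by omega)

/-- The minimal number of factors, truncated at `m / 2`. -/
lemma exists_index (A : G → Prop) (m : ℕ) (x : G) : ∃ k, Walk A k x ∨ m ≤ 2 * k :=
  ⟨m, Or.inr (by omega)⟩

open Classical in
/-- The truncated word length. -/
noncomputable def wl (A : G → Prop) (m : ℕ) (x : G) : ℕ := Nat.find (exists_index A m x)

lemma wl_spec (A : G → Prop) (m : ℕ) (x : G) : Walk A (wl A m x) x ∨ m ≤ 2 * wl A m x := by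
  classical
  exact Nat.find_spec (exists_index A m x)

lemma wl_le {A : G → Prop} {m : ℕ} {x : G} {k : ℕ} (h : Walk A k x ∨ m ≤ 2 * k) :
    wl A m x ≤ k := by
  classical
  exact Nat.find_min' (exists_index A m x) h

lemma wl_mul (A : G → Prop) (m : ℕ) (x y : G) : wl A m (x * y) ≤ wl A m x + wl A m y := by
  apply wl_le
  rcases wl_spec A m x with hx | hx
  · rcases wl_spec A m y with hy | hy
    · exact Or.inl (hx.mul hy)
    · right; omega
  · right; omega

lemma wl_inv {A : G → Prop} (hA : ∀ x, A x → A x⁻¹) (m : ℕ) (x : G) :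
    wl A m x⁻¹ = wl A m x := by
  have h : ∀ x, wl A m x⁻¹ ≤ wl A m x := by
    intro x
    apply wl_le
    rcases wl_spec A m x with hx | hx
    · exact Or.inl (hx.inv hA)
    · right; omega
  apply le_antisymm (h x)
  have := h x⁻¹
  rwa [inv_inv] at this

lemma wl_one (A : G → Prop) (m : ℕ) : wl A m (1 : G) = 0 := by
  have := wl_le (m := m) (Or.inl (Walk.one (A := A)))
  omega

lemma wl_pos {A : G → Prop} {m : ℕ} (hm : 0 < m) {x : G} (hx : x ≠ 1) : 0 < wl A m x := by
  rw [Nat.pos_iff_ne_zero]
  intro h0
  rcases wl_spec A m x with h | h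
  · rw [h0] at h
    exact hx h.zero_iff
  · omega

/-- The metric `min(1, 2 d_A(x, y) / m)`. -/
noncomputable def rho (A : G → Prop) (m : ℕ) (x y : G) : ℝ :=
  min 1 (2 / (m : ℝ) * (wl A m (x⁻¹ * y) : ℝ))

lemma rho_isMetric {A : G → Prop} (hA : ∀ x, A x → A x⁻¹) {m : ℕ} (hm : 0 < m) :
    IsMetric (rho A m) := by
  have hm' : (0 : ℝ) < m := by exact_mod_cast hm
  refine ⟨?_, ?_, ?_, ?_⟩
  · intro x
    simp [rho, wl_one]
  · intro x y hxy
    have h1 : x⁻¹ * y ≠ 1 := by
      intro h
      apply hxy
      exact inv_mul_eq_one.mp h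
    have h2 : (0 : ℝ) < (wl A m (x⁻¹ * y) : ℝ) := by exact_mod_cast wl_pos hm h1
    unfold rho
    apply lt_min one_pos
    positivity
  · intro x y
    unfold rho
    rw [← wl_inv hA m (x⁻¹ * y)]
    congr 3
    group
  · intro x y z
    have h1 : (wl A m (x⁻¹ * z) : ℝ) ≤ wl A m (x⁻¹ * y) + wl A m (y⁻¹ * z) := by
      have := wl_mul A m (x⁻¹ * y) (y⁻¹ * z)
      have e : x⁻¹ * y * (y⁻¹ * z) = x⁻¹ * z := by group
      rw [e] at this
      exact_mod_cast this
    have h2 : 2 / (m : ℝ) * (wl A m (x⁻¹ * z) : ℝ) ≤
        2 / (m : ℝ) * (wl A m (x⁻¹ * y) : ℝ) + 2 / (m : ℝ) * (wl A m (y⁻¹ * z) : ℝ) := by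
      rw [← mul_add]
      exact mul_le_mul_of_nonneg_left h1 (by positivity)
    unfold rho
    have p1 : (0 : ℝ) ≤ 2 / (m : ℝ) * (wl A m (x⁻¹ * y) : ℝ) := by positivity
    have p2 : (0 : ℝ) ≤ 2 / (m : ℝ) * (wl A m (y⁻¹ * z) : ℝ) := by positivity
    rcases le_total 1 (2 / (m : ℝ) * (wl A m (x⁻¹ * y) : ℝ)) with c1 | c1
    · rw [min_eq_left c1]
      have : 0 ≤ min 1 (2 / (m : ℝ) * (wl A m (y⁻¹ * z) : ℝ)) := le_min zero_le_one p2
      linarith [min_le_left 1 (2 / (m : ℝ) * (wl A m (x⁻¹ * z) : ℝ))]
    · rcases le_total 1 (2 / (m : ℝ) * (wl A m (y⁻¹ * z) : ℝ)) with c2 | c2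
      · rw [min_eq_left c2]
        have : 0 ≤ min 1 (2 / (m : ℝ) * (wl A m (x⁻¹ * y) : ℝ)) := le_min zero_le_one p1
        linarith [min_le_left 1 (2 / (m : ℝ) * (wl A m (x⁻¹ * z) : ℝ))]
      · rw [min_eq_right c1, min_eq_right c2]
        exact (min_le_right _ _).trans h2

lemma rho_le_one (A : G → Prop) (m : ℕ) (x y : G) : rho A m x y ≤ 1 := min_le_left _ _

lemma rho_le_of_mem {A : G → Prop} {m : ℕ} {x y : G} (h : A (x⁻¹ * y)) :
    rho A m x y ≤ 2 / (m : ℝ) := by
  unfold rho
  refine (min_le_right _ _).trans ?_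
  have h1 : wl A m (x⁻¹ * y) ≤ 1 := wl_le (Or.inl (Walk.single h))
  have h2 : (wl A m (x⁻¹ * y) : ℝ) ≤ 1 := by exact_mod_cast h1
  have : (0 : ℝ) ≤ 2 / (m : ℝ) := by positivity
  exact mul_le_of_le_one_right this h2

/-! ### Short distances are realised along the run -/

omit [Group G] in
lemma Geo.sub {q : ℕ → G} {m : ℕ} (hq : Geo P q m) {c k : ℕ} (hck : c + k ≤ m) :
    Geo P (fun t => q (c + t)) k := by
  intro i j hij hj
  have h := hq (c + i) (c + j) (by omega) (by omega)
  simp only
  rw [h]
  have e : c + j - (c + i) + 1 = j - i + 1 := by omega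
  rw [e]
  apply List.map_congr_left
  intro t _
  rw [add_assoc]

omit [Group G] in
lemma Geo.unique {f g : ℕ → G} {K k : ℕ} (hf : Geo P f K) (hg : Geo P g k) (h0 : f 0 = g 0)
    (h1 : f K = g k) : K = k ∧ ∀ i, i ≤ k → f i = g i := by
  have e1 := hf 0 K (Nat.zero_le _) le_rfl
  have e2 := hg 0 k (Nat.zero_le _) le_rfl
  rw [h0, h1, e2] at e1
  have hl := congrArg List.length e1
  simp at hl
  subst hl
  refine ⟨rfl, ?_⟩
  intro i hi
  have := congrArg (fun l => l[i]?) e1
  have hi' : i < k + 1 := by omega
  simpa [hi'] using this.symm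

lemma walk_geo (hP : IsConsistentPathSystem Γ P) {A : G → Prop} (hA : ∀ x, A x → A x⁻¹)
    (hA2 : ∀ x y z, A x → A y → A z → x ≠ z → y ≠ z → x = y) {q : ℕ → G} {m : ℕ}
    (hq : Geo P q m) (hqA : ∀ i, i < m → A ((q i)⁻¹ * q (i + 1))) {k : ℕ} {w : ℕ → G}
    (w0 : w 0 = 1) (hw : ∀ i, i < k → A ((w i)⁻¹ * w (i + 1)))
    (hnb : ∀ i, i + 2 ≤ k → w (i + 2) ≠ w i) {c : ℕ} (hck : c + k ≤ m)
    (h1 : 0 < k → w 1 = (q c)⁻¹ * q (c + 1)) : ∀ i, i ≤ k → q c * w i = q (c + i) := by
  intro i
  induction i using Nat.strong_induction_on with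
  | _ i ih =>
    intro hi
    rcases i with _ | _ | i
    · simp [w0]
    · rw [h1 (by omega)]; group
    · have e0 := ih i (by omega) (by omega)
      have e1 := ih (i + 1) (by omega) (by omega)
      have a1 : A ((w (i + 1))⁻¹ * w (i + 2)) := hw (i + 1) (by omega)
      have a2 : A ((q (c + (i + 1)))⁻¹ * q (c + (i + 1) + 1)) := hqA _ (by omega)
      have a3 : A ((q (c + (i + 1)))⁻¹ * q (c + i)) := by
        have := hA _ (hqA (c + i) (by omega))
        have e : ((q (c + i))⁻¹ * q (c + i + 1))⁻¹ = (q (c + (i + 1)))⁻¹ * q (c + i) := by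
          rw [← add_assoc]; group
        rwa [e] at this
      have n1 : (w (i + 1))⁻¹ * w (i + 2) ≠ (q (c + (i + 1)))⁻¹ * q (c + i) := by
        rw [← e1, ← e0]
        intro h
        apply hnb i (by omega)
        have h2 : (w (i + 1))⁻¹ * w (i + 2) = (w (i + 1))⁻¹ * w i := by
          rw [h]; group
        exact mul_left_cancel h2
      have n2 : (q (c + (i + 1)))⁻¹ * q (c + (i + 1) + 1) ≠
          (q (c + (i + 1)))⁻¹ * q (c + i) := by
        intro h
        have h2 := mul_left_cancel h
        have := hq.nodup hP (by omega) (by omega) h2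
        omega
      have h3 := hA2 _ _ _ a1 a2 a3 n1 n2
      have h5 : q (c + (i + 2)) = q (c + (i + 1)) *
          ((q (c + (i + 1)))⁻¹ * q (c + (i + 1) + 1)) := by
        have : c + (i + 2) = c + (i + 1) + 1 := by omega
        rw [this]; group
      rw [h5, ← h3, ← e1]
      group

lemma exists_geo_of_walk (hP : IsConsistentPathSystem Γ P) (hinv : IsInvariant P)
    {A : G → Prop} (hA : ∀ x, A x → A x⁻¹)
    (hA2 : ∀ x y z, A x → A y → A z → x ≠ z → y ≠ z → x = y) {q : ℕ → G} {m : ℕ}
    (hq : Geo P q m) (hqA : ∀ i, i < m → A ((q i)⁻¹ * q (i + 1))) {k : ℕ} {w : ℕ → G}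
    (w0 : w 0 = 1) (hw : ∀ i, i < k → A ((w i)⁻¹ * w (i + 1)))
    (hnb : ∀ i, i + 2 ≤ k → w (i + 2) ≠ w i) (hkm : 2 * k < m) (u : G) :
    ∃ p : ℕ → G, Geo P p k ∧ p 0 = u ∧ p k = u * w k ∧ ∀ i, i < k → A ((p i)⁻¹ * p (i + 1)) := by
  -- the conclusion from `walk_geo`
  have fin : ∀ (q : ℕ → G) (c : ℕ), Geo P q m → (∀ i, i < m → A ((q i)⁻¹ * q (i + 1))) →
      c + k ≤ m → (0 < k → w 1 = (q c)⁻¹ * q (c + 1)) →
      ∃ p : ℕ → G, Geo P p k ∧ p 0 = u ∧ p k = u * w k ∧
        ∀ i, i < k → A ((p i)⁻¹ * p (i + 1)) := by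
    intro q c hq hqA hck h1
    have hwg := walk_geo hP hA hA2 hq hqA w0 hw hnb hck h1
    refine ⟨fun t => (u * (q c)⁻¹) * q (c + t), (hq.sub hck).mul hinv _, by simp, ?_, ?_⟩
    · simp only
      rw [← hwg k le_rfl]
      group
    · intro i hi
      have := hqA (c + i) (by omega)
      simp only
      convert this using 1
      rw [add_assoc]
      group
  rcases Nat.eq_zero_or_pos k with h0 | h0
  · exact fin q 0 hq hqA (by omega) (fun h => absurd h (by omega))
  · by_cases hf : w 1 = (q k)⁻¹ * q (k + 1)
    · exact fin q k hq hqA (by omega) (fun _ => hf)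
    · -- the other direction
      have hq' := hq.rev hP
      have hqA' : ∀ i, i < m → A ((q (m - i))⁻¹ * q (m - (i + 1))) := by
        intro i hi
        have := hA _ (hqA (m - (i + 1)) (by omega))
        have e : m - (i + 1) + 1 = m - i := by omega
        rw [e] at this
        convert this using 1
        group
      refine fin (fun t => q (m - t)) (m - k) hq' hqA' (by omega) (fun _ => ?_)
      have e1 : m - (m - k) = k := by omega
      have e2 : m - (m - k + 1) = k - 1 := by omega
      simp only [e1, e2]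
      have a1 : A (w 1) := by
        have := hw 0 h0
        rw [w0] at this
        simpa using this
      have a2 : A ((q k)⁻¹ * q (k - 1)) := by
        have := hqA' (m - k) (by omega)
        rwa [e1, e2] at this
      have a3 : A ((q k)⁻¹ * q (k + 1)) := hqA k (by omega)
      refine hA2 _ _ _ a1 a2 a3 hf ?_
      intro h
      have h2 := mul_left_cancel h
      have := hq.nodup hP (by omega) (by omega) h2
      omega

/-! ### The theorem -/

theorem isAlphaMetric [Fintype G] (hP : IsConsistentPathSystem Γ P) (hinv : IsInvariant P) :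
    IsAlphaMetric P (6 * Real.sqrt (Fintype.card G)) := by
  classical
  set N := Fintype.card G with hNdef
  have hN0 : 0 < N := Fintype.card_pos
  set s := Real.sqrt (N : ℝ) with hs
  have hss : s * s = N := Real.mul_self_sqrt (by positivity)
  have hs0 : 0 < s := Real.sqrt_pos.mpr (by exact_mod_cast hN0)
  -- a longest path
  obtain ⟨⟨u₀, v₀⟩, hmax⟩ := Finite.exists_max (fun p : G × G => (P p.1 p.2).length)
  obtain ⟨h, L, -, -, hh, hPh⟩ := exists_geo hP u₀ v₀
  have hKL : ∀ (f : ℕ → G) (K : ℕ), Geo P f K → K ≤ L := by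
    intro f K hf
    have h1 := hf 0 K (Nat.zero_le _) le_rfl
    have h2 := hmax (f 0, f K)
    simp only at h2
    rw [h1, hPh] at h2
    simp at h2
    exact h2
  by_cases hcase : 36 * N ≤ L * L
  · -- long paths
    have hLN : L + 1 ≤ N := hh.card_le hP
    have hL0 : 0 < L := by
      rw [Nat.pos_iff_ne_zero]
      rintro rfl
      omega
    obtain ⟨A, hA, hA2, hr⟩ := exists_pair hP hinv hh hL0 hcase
    set r := cnt h L (fun z => ¬ A z) with hrdef
    have h12 : 12 * r ≤ L := by
      by_contra hc
      push Not at hc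
      have h1 : L * (L + 1) ≤ L * (12 * r) := Nat.mul_le_mul_left _ hc
      linarith
    have hL37 : 36 < L := by
      by_contra hc
      push Not at hc
      have : L * L ≤ 36 * L := Nat.mul_le_mul_right _ hc
      omega
    set m := L / (r + 1) with hm
    have hm1 : m * (r + 1) ≤ L := Nat.div_mul_le_self _ _
    have hm2 : L < (m + 1) * (r + 1) := by
      have := Nat.lt_div_mul_add (a := L) (b := r + 1) (by omega)
      rw [← hm] at this
      linarith
    have hmpos : 0 < m := Nat.div_pos (by omega) (by omega)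
    obtain ⟨q₀, hq₀, hgood⟩ := exists_window L r m (fun j => ¬ A ((h j)⁻¹ * h (j + 1)))
      (by rw [hrdef]; unfold cnt; congr) hm1
    have hq := hh.sub (c := q₀) (k := m) hq₀
    have hqA : ∀ i, i < m → A ((h (q₀ + i))⁻¹ * h (q₀ + (i + 1))) := by
      intro i hi
      have := hgood (q₀ + i) (by omega) (by omega)
      rw [not_not] at this
      exact this
    refine ⟨rho A m, rho_isMetric hA hmpos, ?_⟩
    intro u v
    obtain ⟨f, K, f0, fK, hf, hPf⟩ := exists_geo hP u v
    rw [hPf, pathLength_map_range]
    have hmR : (0 : ℝ) < m := by exact_mod_cast hmpos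
    by_cases hfar : m ≤ 2 * wl A m (u⁻¹ * v)
    · -- far apart
      have hrho : rho A m u v = 1 := by
        unfold rho
        apply min_eq_left
        rw [div_mul_eq_mul_div, le_div_iff₀ hmR]
        have : (m : ℝ) ≤ 2 * (wl A m (u⁻¹ * v) : ℝ) := by exact_mod_cast hfar
        linarith
      rw [hrho, mul_one]
      have hsum : ∑ i ∈ Finset.range K, rho A m (f i) (f (i + 1)) ≤
          2 / (m : ℝ) * K + cnt f K (fun z => ¬ A z) := by
        have h1 : ∀ i ∈ Finset.range K, rho A m (f i) (f (i + 1)) ≤
            2 / (m : ℝ) + (if ¬ A ((f i)⁻¹ * f (i + 1)) then 1 else 0) := by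
          intro i _
          by_cases hi : A ((f i)⁻¹ * f (i + 1))
          · simpa [hi] using rho_le_of_mem hi
          · simp only [hi, not_false_eq_true, if_true]
            have : (0 : ℝ) ≤ 2 / (m : ℝ) := by positivity
            linarith [rho_le_one A m (f i) (f (i + 1))]
        refine (Finset.sum_le_sum h1).trans ?_
        rw [Finset.sum_add_distrib, Finset.sum_const, Finset.card_range, nsmul_eq_mul]
        have h2 : (∑ i ∈ Finset.range K, (if ¬ A ((f i)⁻¹ * f (i + 1)) then (1 : ℝ) else 0)) =
            (cnt f K (fun z => ¬ A z) : ℝ) := by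
          unfold cnt
          rw [Finset.card_filter]
          push_cast
          apply Finset.sum_congr rfl
          intro i _
          congr
        rw [h2]
        linarith [mul_comm (K : ℝ) (2 / (m : ℝ))]
      refine hsum.trans ?_
      have hr' := other_letters_le hP hinv hf hh A hA h12
      set r' := cnt f K (fun z => ¬ A z) with hr'def
      rw [← hNdef] at hr'
      have hK := hKL f K hf
      -- real inequalities
      have LR : (0 : ℝ) < L := by exact_mod_cast hL0
      have i1 : (K : ℝ) ≤ L := by exact_mod_cast hK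
      have i2 : 5 * (L : ℝ) * r' ≤ 6 * N := by exact_mod_cast hr'
      have i3 : (L : ℝ) * r ≤ 3 * N := by exact_mod_cast hr
      have i4 : 12 * (r : ℝ) ≤ L := by exact_mod_cast h12
      have i5 : (L : ℝ) < (m + 1) * (r + 1) := by exact_mod_cast hm2
      have i5' : (L : ℝ) - r ≤ m * (r + 1) := by
        have h5 : L + 1 ≤ (m + 1) * (r + 1) := hm2
        have h6 : (L : ℝ) + 1 ≤ (m + 1) * (r + 1) := by exact_mod_cast h5
        linarith
      have i6 : (L : ℝ) + 1 ≤ N := by exact_mod_cast hLN
      have i7 : 36 * (N : ℝ) ≤ L * L := by exact_mod_cast hcase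
      have i8 : 6 * s ≤ L := by
        have : (6 * s) ^ 2 ≤ (L : ℝ) ^ 2 := by linarith
        exact le_of_sq_le_sq this LR.le
      -- 2 K / m ≤ 24 (r + 1) / 11
      have i9 : 2 / (m : ℝ) * K ≤ 24 / 11 * (r + 1) := by
        have h7 : 11 * (L : ℝ) ≤ 12 * (m * (r + 1)) := by linarith
        have h8 : 2 / (m : ℝ) * K ≤ 2 / (m : ℝ) * L :=
          mul_le_mul_of_nonneg_left i1 (by positivity)
        refine h8.trans ?_
        rw [div_mul_eq_mul_div, div_le_iff₀ hmR]
        linarith
      have i10 : (L : ℝ) * (2 / (m : ℝ) * K + r') ≤ 10 * N := by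
        have h9 : (L : ℝ) * (2 / (m : ℝ) * K) ≤ L * (24 / 11 * (r + 1)) :=
          mul_le_mul_of_nonneg_left i9 LR.le
        linarith
      by_contra hc
      push Not at hc
      have h10 : (6 * s) * (6 * s) < L * (2 / (m : ℝ) * K + r') := by
        have h11 : (6 * s) * (6 * s) ≤ L * (6 * s) := mul_le_mul_of_nonneg_right i8 (by positivity)
        have h12 : L * (6 * s) < L * (2 / (m : ℝ) * K + r') := mul_lt_mul_of_pos_left hc LR
        linarith
      have NR : (0 : ℝ) < N := by exact_mod_cast hN0
      linarith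
    · -- close
      push Not at hfar
      set k := wl A m (u⁻¹ * v) with hk
      have hwalk : Walk A k (u⁻¹ * v) := by
        rcases wl_spec A m (u⁻¹ * v) with h1 | h1
        · exact h1
        · rw [← hk] at h1; omega
      obtain ⟨w, w0, wk, hw⟩ := hwalk
      have hnb : ∀ i, i + 2 ≤ k → w (i + 2) ≠ w i := by
        intro i hi he
        have h1 := Walk.shorten w w0 hw hi he
        rw [wk] at h1
        have h2 := wl_le (m := m) (Or.inl h1)
        omega
      obtain ⟨p, hp, p0, pk, hpA⟩ := exists_geo_of_walk hP hinv hA hA2 hq hqA w0 hw hnb hfar u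
      have pk' : p k = v := by rw [pk, wk]; group
      obtain ⟨hKk, hfp⟩ := hf.unique hp (by rw [f0, p0]) (by rw [fK, pk'])
      subst hKk
      have hrho : rho A m u v = 2 / (m : ℝ) * k := by
        unfold rho
        rw [← hk]
        apply min_eq_right
        rw [div_mul_eq_mul_div, div_le_one hmR]
        have : 2 * k ≤ m := hfar.le
        exact_mod_cast this
      have hsum : ∑ i ∈ Finset.range k, rho A m (f i) (f (i + 1)) ≤ 2 / (m : ℝ) * k := by
        have : ∑ i ∈ Finset.range k, rho A m (f i) (f (i + 1)) ≤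
            ∑ i ∈ Finset.range k, 2 / (m : ℝ) := by
          apply Finset.sum_le_sum
          intro i hi
          have hi' := Finset.mem_range.mp hi
          apply rho_le_of_mem
          rw [hfp i (by omega), hfp (i + 1) (by omega)]
          exact hpA i hi'
        refine this.trans (le_of_eq ?_)
        rw [Finset.sum_const, Finset.card_range, nsmul_eq_mul, mul_comm]
      rw [hrho]
      refine hsum.trans ?_
      have h1 : 1 ≤ 6 * s := by
        have h2 : (1 : ℝ) ≤ s := by
          rw [hs]
          apply Real.one_le_sqrt.mpr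
          exact_mod_cast hN0
        linarith
      have h3 : (0 : ℝ) ≤ 2 / (m : ℝ) * k := by positivity
      exact le_mul_of_one_le_left h3 h1
  · -- short paths: the discrete metric
    push Not at hcase
    refine ⟨fun x y => if x = y then 0 else 1, ⟨by simp, ?_, ?_, ?_⟩, ?_⟩
    · intro x y hxy
      simp [hxy]
    · intro x y
      by_cases hxy : x = y
      · subst hxy; rfl
      · simp [hxy, Ne.symm hxy]
    · intro x y z
      by_cases h1 : x = y
      · subst h1; simp
      · by_cases h2 : x = z
        · subst h2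
          have : (0 : ℝ) ≤ if y = x then 0 else 1 := by split_ifs <;> norm_num
          simp only [h1, if_true, if_false]
          linarith
        · simp only [h1, h2, if_false]
          have : (0 : ℝ) ≤ if y = z then 0 else 1 := by split_ifs <;> norm_num
          linarith
    · intro u v
      obtain ⟨f, K, f0, fK, hf, hPf⟩ := exists_geo hP u v
      rw [hPf, pathLength_map_range]
      have hK := hKL f K hf
      have hsum : ∑ i ∈ Finset.range K, (if f i = f (i + 1) then (0 : ℝ) else 1) ≤ K := by
        have : ∑ i ∈ Finset.range K, (if f i = f (i + 1) then (0 : ℝ) else 1) ≤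
            ∑ i ∈ Finset.range K, (1 : ℝ) := by
          apply Finset.sum_le_sum
          intro i _
          split_ifs <;> norm_num
        simpa using this
      by_cases huv : u = v
      · have hK0 : 0 = K := hf.nodup hP (Nat.zero_le _) le_rfl (by rw [f0, fK, huv])
        subst hK0
        simp [huv]
      · simp only [huv, if_false, mul_one]
        refine hsum.trans ?_
        have h1 : (K : ℝ) ≤ L := by exact_mod_cast hK
        have h2 : (L : ℝ) * L < 36 * N := by exact_mod_cast hcase
        have h3 : (L : ℝ) < 6 * s := by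
          by_contra hc
          push Not at hc
          have : (6 * s) * (6 * s) ≤ L * L := by
            apply mul_le_mul hc hc (by positivity) (by positivity)
          linarith
        linarith

end group

/-- **Main theorem.** For every finite group `G`, every symmetric generating set `S` and every
`G`-invariant consistent path system `P` in the Cayley graph, `Delta P ≤ 6 * sqrt |G|`.  In
particular the answer to Question 1 is negative. -/
theorem result :
    (∀ (G : Type u) [Group G] [Fintype G] (S : Set G) (P : G → G → List G),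
      (∀ s ∈ S, s⁻¹ ∈ S) → Subgroup.closure S = ⊤ →
      IsConsistentPathSystem (cayleyGraph G S) P → IsInvariant P →
      Delta P ≤ 6 * Real.sqrt (Fintype.card G)) ∧
    ¬ QuestionOne.{u} := by
  have main : ∀ (G : Type u) [Group G] [Fintype G] (S : Set G) (P : G → G → List G),
      (∀ s ∈ S, s⁻¹ ∈ S) → Subgroup.closure S = ⊤ →
      IsConsistentPathSystem (cayleyGraph G S) P → IsInvariant P →
      Delta P ≤ 6 * Real.sqrt (Fintype.card G) := by
    intro G _ _ S P _ _ hP hinv
    apply csInf_le
    · exact ⟨1, fun α hα => hα.1⟩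
    · refine ⟨?_, isAlphaMetric hP hinv⟩
      have h2 : (1 : ℝ) ≤ Real.sqrt (Fintype.card G) := by
        apply Real.one_le_sqrt.mpr
        have : 0 < Fintype.card G := Fintype.card_pos
        exact_mod_cast this
      linarith
  refine ⟨main, ?_⟩
  rintro ⟨G, grp, fin, S, P, hall, -, hlim⟩
  have hb : ∀ n, Delta (P n) / Real.sqrt (Fintype.card (G n)) ≤ 6 := by
    intro n
    obtain ⟨h1, h2, h3, h4⟩ := hall n
    have h5 := main (G n) (S n) (P n) h1 h2 h3 h4
    have h6 : 0 < Real.sqrt (Fintype.card (G n)) := by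
      apply Real.sqrt_pos.mpr
      have : 0 < Fintype.card (G n) := Fintype.card_pos
      exact_mod_cast this
    rw [div_le_iff₀ h6]
    exact h5
  obtain ⟨n, hn⟩ := (hlim.eventually_gt_atTop 6).exists
  exact absurd (hb n) (not_le.mpr hn)

end Pool.Agent.Results.MP_8f0578_co.SqrtUpperBound
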